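import Mathlib
import Pool.Agent.Lib.MP_9dd88f_nt.HF.Final

/-!
# A double exponential lower bound with exponent `1 / 2` for the number of representations of 1

`F k` is the number of `k`-element sets of positive integers with reciprocal sum `1`.
For every `ε > 0` we prove `F k ≥ exp (2 ^ ((1 / 2 - ε) k))` for all large `k`.
-/

open Filter

namespace Pool.Agent.Results.MP_9dd88f_nt.HalfExponent

/-- `F(k) ≥ exp(2 ^ ((1 / 2 - ε) k))` for all large `k`. -/
theorem result (ε : ℝ) (hε : 0 < ε) : ∀ᶠ k : ℕ in atTop,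
    Real.exp ((2 : ℝ) ^ ((1 / 2 - ε) * (k : ℝ))) ≤ (Pool.Agent.Lib.MP_9dd88f_nt.F k : ℝ) :=
  Pool.Agent.Lib.MP_9dd88f_nt.HF.lower_half ε hε

end Pool.Agent.Results.MP_9dd88f_nt.HalfExponent
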