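import Mathlib
import Pool.Agent.Lib.MP_9dd88f_nt.UB.Z6

/-!
# An upper bound for the number of Egyptian fraction representations of 1

For every `ε > 0` and all large `k` the equation `1 = 1 / n_1 + … + 1 / n_k` has at most
`c_0 ^ ((1 / 12 + ε) 2 ^ k)` solutions in positive integers `n_1 ≤ … ≤ n_k`; in particular
`F(k) ≤ c_0 ^ ((1 / 12 + ε) 2 ^ k)`.  Here `c_0 = sup u_m ^ (2 ^ (-m)) = 1.5979…` with `u_0 = 1`
and `u_{m+1} = u_m (u_m + 1)`.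
-/

namespace Pool.Agent.Results.MP_9dd88f_nt.UpperBound

open Pool.Agent.Lib.MP_9dd88f_nt Pool.Agent.Lib.MP_9dd88f_nt.UB

theorem result (ε : ℝ) (hε : 0 < ε) : ∃ K : ℕ, ∀ k : ℕ, K ≤ k →
    (msols k).Finite ∧ ((msols k).ncard : ℝ) ≤ c0 ^ ((1 / 12 + ε) * 2 ^ k) ∧
    (F k : ℝ) ≤ c0 ^ ((1 / 12 + ε) * 2 ^ k) :=
  main ε hε

end Pool.Agent.Results.MP_9dd88f_nt.UpperBound
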